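import Pool.Agent.Helper25.UG.Pk
import Pool.Agent.Helper69.UG.Defs

/-!
# UG: blocks R3 (facts on the primes of the resonator) and M2 (Barban-Vehov)
-/

set_option autoImplicit false
open ArithmeticFunction Finset
open Pool.Agent.Helper57.LH Pool.Agent.Helper69.UG

namespace Pool.Agent.Helper25.UG

/-- left end of the primes of the resonator. -/
noncomputable def yR (T c : ℝ) : ℝ := T ^ (1 / (4 * c))

lemma yR_cube {T c : ℝ} (hT : 0 < T) : T ^ (3 / (4 * c)) = yR T c ^ 3 := by
  unfold yR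
  rw [← Real.rpow_natCast (T ^ (1 / (4 * c))) 3, ← Real.rpow_mul hT.le]
  congr 1
  push_cast
  ring

lemma yR_log {T c : ℝ} (hT : 0 < T) : Real.log (yR T c) = XX T c / 4 := by
  unfold yR XX
  rw [Real.log_rpow hT]
  by_cases hc : c = 0
  · simp [hc]
  · field_simp

lemma PR_eq {T c : ℝ} (hT : 0 < T) : PR T c = prs (yR T c) (yR T c ^ 3) := by
  have h0 : 0 < yR T c := Real.rpow_pos_of_pos hT _
  ext p
  rw [mem_prs (by positivity)]
  unfold PR
  rw [mem_filter, mem_range, yR_cube hT]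
  constructor
  · rintro ⟨h1, h2, h3⟩
    exact ⟨h3, (Nat.le_floor_iff (by positivity)).mp (by omega), h2⟩
  · rintro ⟨h1, h2, h3⟩
    exact ⟨Nat.lt_succ_of_le ((Nat.le_floor_iff (by positivity)).mpr h2), h3, h1⟩

/-- `T` large and `c` admissible: the primes are at least `(log T)^4`. -/
lemma yR_ge {c0 T c : ℝ} (hc0 : 1 ≤ c0) (hT : Real.exp (Real.exp 1) ≤ T) (h : Adm c0 T c) :
    Real.log T ^ 4 ≤ yR T c := by
  have hT0 : 0 < T := (Real.exp_pos _).trans_le hT
  have hL : Real.exp 1 ≤ Real.log T := (Real.le_log_iff_exp_le hT0).mpr hT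
  have hL0 : 0 < Real.log T := (Real.exp_pos _).trans_le hL
  have hLL : 1 ≤ Real.log (Real.log T) := (Real.le_log_iff_exp_le hL0).mpr hL
  have hc : 0 < c := by linarith [h.1]
  have h1 : 0 < yR T c := Real.rpow_pos_of_pos hT0 _
  rw [← Real.log_le_log_iff (by positivity) h1, yR_log hT0, Real.log_pow]
  unfold XX
  rw [div_div, le_div_iff₀ (by positivity)]
  push_cast
  linarith [h.2]

/-- R3. -/
theorem PR_facts : ∃ c0 T0 : ℝ, ∀ T, T0 ≤ T → ∀ c, Adm c0 T c →
    (∀ p ∈ PR T c, p.Prime ∧ Real.log T ^ 4 < p ∧ XX T c / 4 < Real.log p ∧ Real.log p ≤ 3 / 4 * XX T c) ∧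
    1 / 2 ≤ ∑ p ∈ PR T c, (1 / p : ℝ) ∧ ∑ p ∈ PR T c, (1 / p : ℝ) ≤ 2 := by
  obtain ⟨y0, hy0, hb⟩ := sum_inv_block
  refine ⟨1, max (Real.exp (Real.exp 1)) (Real.exp y0), fun T hT c hA => ?_⟩
  have hT1 := (le_max_left _ _).trans hT
  have hT2 := (le_max_right _ _).trans hT
  have hT0 : 0 < T := (Real.exp_pos _).trans_le hT1
  have hL : y0 ≤ Real.log T := (Real.le_log_iff_exp_le hT0).mpr hT2
  have hy := yR_ge le_rfl hT1 hA
  have h1 : 1 ≤ Real.log T := by linarith
  have h2 : y0 ≤ yR T c := by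
    refine hL.trans (le_trans ?_ hy)
    calc Real.log T = Real.log T ^ 1 := (pow_one _).symm
      _ ≤ Real.log T ^ 4 := pow_le_pow_right₀ h1 (by norm_num)
  have hyp : 0 < yR T c := by linarith
  have h3 := hb (yR T c) h2
  rw [← PR_eq hT0] at h3
  refine ⟨fun p hp => ?_, h3.1, h3.2⟩
  rw [PR_eq hT0, mem_prs (by positivity)] at hp
  have hp0 : (0:ℝ) < p := by linarith
  refine ⟨hp.2.2, by linarith, ?_, ?_⟩
  · rw [← yR_log hT0]
    exact Real.log_lt_log hyp hp.1
  · have h4 := Real.log_le_log hp0 hp.2.1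
    rw [Real.log_pow, yR_log hT0] at h4
    push_cast at h4
    linarith

/-- the weights of the project are `am (T^(1/16))`. -/
lemma ma_eq {T c : ℝ} (hT : 1 < T) {d : ℕ} (hd : d ≠ 0) :
    ma T c d = am (T ^ (1 / 16 : ℝ)) (pS (PR T c)) d := by
  have hT0 : 0 < T := by linarith
  have hL : 0 < Real.log T := Real.log_pos hT
  have hd0 : (0:ℝ) < d := by exact_mod_cast Nat.pos_of_ne_zero hd
  have hX : 0 < T ^ (1 / 16 : ℝ) := Real.rpow_pos_of_pos hT0 _
  have hprime : ∀ p ∈ PR T c, p.Prime := fun p hp => ((mem_filter.mp hp).2).1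
  have hcop : (∀ p ∈ PR T c, ¬ p ∣ d) ↔ d.Coprime (pS (PR T c)) := by
    unfold pS
    rw [Nat.coprime_prod_right_iff]
    refine forall₂_congr fun p hp => ?_
    rw [Nat.coprime_comm, (hprime p hp).coprime_iff_not_dvd]
  unfold ma am
  by_cases h : d.Coprime (pS (PR T c))
  · rw [if_pos (hcop.mpr h), if_pos h]
    unfold amol
    congr 1
    rw [Real.log_div hX.ne' hd0.ne', Real.log_div (Real.sqrt_pos.mpr hX).ne' hd0.ne', Real.log_sqrt hX.le,
      Real.log_rpow hT0]
    rcases le_total (Real.log d) (Real.log T / 32) with h1 | h1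
    · have e1 : min 1 (2 - 32 * Real.log d / Real.log T) = 1 := by
        apply min_eq_left
        have : 32 * Real.log d / Real.log T ≤ 1 := by rw [div_le_iff₀ hL]; linarith
        linarith
      have e2 : max 0 (1 / 16 * Real.log T - Real.log d) = 1 / 16 * Real.log T - Real.log d :=
        max_eq_right (by linarith)
      have e3 : max 0 (1 / 16 * Real.log T / 2 - Real.log d) = 1 / 16 * Real.log T / 2 - Real.log d :=
        max_eq_right (by linarith)
      rw [e1, e2, e3, max_eq_right (by norm_num)]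
      field_simp
      ring
    · have e1 : min 1 (2 - 32 * Real.log d / Real.log T) = 2 - 32 * Real.log d / Real.log T := by
        apply min_eq_right
        have : 1 ≤ 32 * Real.log d / Real.log T := by rw [le_div_iff₀ hL]; linarith
        linarith
      have e3 : max 0 (1 / 16 * Real.log T / 2 - Real.log d) = 0 := max_eq_left (by linarith)
      rw [e1, e3]
      rcases le_total (Real.log d) (Real.log T / 16) with h2 | h2
      · have e2 : max 0 (1 / 16 * Real.log T - Real.log d) = 1 / 16 * Real.log T - Real.log d :=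
          max_eq_right (by linarith)
        have e4 : 32 * Real.log d / Real.log T ≤ 2 := by rw [div_le_iff₀ hL]; linarith
        rw [e2, max_eq_right (by linarith)]
        field_simp
        ring
      · have e2 : max 0 (1 / 16 * Real.log T - Real.log d) = 0 := max_eq_left (by linarith)
        have e4 : 2 ≤ 32 * Real.log d / Real.log T := by rw [le_div_iff₀ hL]; linarith
        rw [e2, max_eq_left (by linarith)]
        simp
  · rw [if_neg (fun h1 => h (hcop.mp h1)), if_neg h]

lemma am_of_gt {X : ℝ} (hX : 1 < X) {q0 d : ℕ} (hd : X < d) : am X q0 d = 0 := by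
  have hX0 : 0 < X := by linarith
  have hd0 : (0:ℝ) < d := by linarith
  have hsX : √X ≤ X := by
    rw [Real.sqrt_le_left (by linarith)]
    nlinarith only [hX]
  unfold am amol
  rw [max_eq_left, max_eq_left]
  · simp
  · apply Real.log_nonpos (by positivity)
    rw [div_le_one hd0]; linarith
  · apply Real.log_nonpos (by positivity)
    rw [div_le_one hd0]; linarith

lemma sum_am_eq {X : ℝ} (hX : 1 < X) {q0 n : ℕ} (hn : n ≠ 0) : ∑ d ∈ n.divisors, am X q0 d = bm X q0 n := by
  unfold bm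
  symm
  apply sum_subset
  · intro d hd
    rw [mem_filter] at hd
    exact Nat.mem_divisors.mpr ⟨hd.2, hn⟩
  · intro d hd hd'
    rw [Nat.mem_divisors] at hd
    apply am_of_gt hX
    by_contra h1
    push Not at h1
    apply hd'
    rw [mem_filter, mem_Ioc]
    exact ⟨⟨Nat.pos_of_dvd_of_pos hd.1 (Nat.pos_of_ne_zero hn), (Nat.le_floor_iff (by linarith)).mpr h1⟩, hd.1⟩

/-- M2: Barban-Vehov at `1/2 + 1/log T`. -/
theorem bv : ∃ C c0 T0 : ℝ, 0 < C ∧ ∀ T, T0 ≤ T → ∀ c, Adm c0 T c → ∀ S : Finset ℕ, (∀ n ∈ S, n ≠ 0) →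
    ∑ n ∈ S, (∑ d ∈ n.divisors, ma T c d) ^ 2 * (n : ℝ) ^ (-(1 + 2 / Real.log T)) ≤ C := by
  obtain ⟨c0, T0, hf⟩ := PR_facts
  refine ⟨16 * (CQ * Real.exp 4 ^ 2), c0, max T0 (Real.exp 32), by have := CQ_pos; positivity,
    fun T hT c hA S hS => ?_⟩
  have hT1 : Real.exp 32 ≤ T := (le_max_right _ _).trans hT
  have hT0 : 0 < T := (Real.exp_pos _).trans_le hT1
  have hL : 32 ≤ Real.log T := (Real.le_log_iff_exp_le hT0).mpr hT1
  have hTone : 1 < T := by
    have : (1:ℝ) < Real.exp 32 := Real.one_lt_exp_iff.mpr (by norm_num)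
    linarith
  have hfa := hf T ((le_max_left _ _).trans hT) c hA
  set X := T ^ (1 / 16 : ℝ) with hX
  have hlX : Real.log X = Real.log T / 16 := by rw [hX, Real.log_rpow hT0]; ring
  have hXp : 0 < X := Real.rpow_pos_of_pos hT0 _
  have hX3 : 3 ≤ X := by
    have h1 : Real.exp 2 ≤ X := by
      rw [← Real.le_log_iff_exp_le hXp, hlX]; linarith
    have h2 := Real.add_one_le_exp (2:ℝ)
    linarith
  have hprime : ∀ p ∈ PR T c, p.Prime := fun p hp => (hfa.1 p hp).1
  set q0 := pS (PR T c) with hq0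
  have hsq : Squarefree q0 := pS_squarefree hprime
  set ε := 2 / Real.log T with hε
  have hε0 : 0 < ε := by positivity
  have hεX : ε * Real.log X ≤ 1 := by
    rw [hlX, hε]
    have : 2 / Real.log T * (Real.log T / 16) = 1 / 8 := by field_simp; norm_num
    rw [this]; norm_num
  have hterm : ∀ n ∈ S, (∑ d ∈ n.divisors, ma T c d) ^ 2 * (n : ℝ) ^ (-(1 + 2 / Real.log T)) =
      bm X q0 n ^ 2 * ew ε n := by
    intro n hn
    have hn0 := hS n hn
    have hn1 : (0:ℝ) < n := by exact_mod_cast Nat.pos_of_ne_zero hn0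
    rw [← sum_am_eq (by linarith) hn0]
    congr 1
    · congr 1
      refine sum_congr rfl fun d hd => ?_
      exact ma_eq hTone (Nat.pos_of_mem_divisors hd).ne'
    · unfold ew
      rw [Real.rpow_def_of_pos hn1, hε]
      ring_nf
  rw [sum_congr rfl hterm]
  obtain ⟨K, hK⟩ : ∃ K : ℕ, S ⊆ Ioc 0 K := by
    refine ⟨S.sup id, fun n hn => ?_⟩
    rw [mem_Ioc]
    exact ⟨Nat.pos_of_ne_zero (hS n hn), le_sup (f := id) hn⟩
  calc _ ≤ ∑ n ∈ Ioc 0 K, bm X q0 n ^ 2 * ew ε n := by
        apply sum_le_sum_of_subset_of_nonneg hK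
        intro n _ _
        exact mul_nonneg (sq_nonneg _) (ew_pos _ _).le
    _ ≤ (1 + 1 / ε) * (CQ * kap q0 ^ 2 / Real.log X) := bvq hX3 hε0 hεX hsq K
    _ ≤ (1 + 1 / ε) * (CQ * Real.exp 4 ^ 2 / Real.log X) := by
        have h1 : kap q0 ≤ Real.exp 4 := by
          have := kap_le_of_sum hprime hfa.2.2
          norm_num at this
          exact this
        have h2 := (kap_pos q0).le
        have h3 := CQ_pos
        have h4 : 0 < Real.log X := by rw [hlX]; linarith
        gcongr
    _ ≤ _ := by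
        have h3 := CQ_pos
        rw [hlX, hε]
        have h5 : 1 + 1 / (2 / Real.log T) ≤ Real.log T := by
          rw [one_div_div]; linarith
        calc _ ≤ Real.log T * (CQ * Real.exp 4 ^ 2 / (Real.log T / 16)) := by
              gcongr
          _ = _ := by field_simp

end Pool.Agent.Helper25.UG
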