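import Pool.Agent.Helper57.M.A

/-!
# UG: Barban-Vehov weights coprime to a fixed number
-/

open ArithmeticFunction Finset
open Pool.Agent.Helper57.LH

namespace Pool.Agent.Helper25.UG

/-- the weights of `amol` on the integers coprime to `q0`. -/
noncomputable def am (X : ℝ) (q0 h : ℕ) : ℝ := if h.Coprime q0 then amol X h else 0

/-- `∑_{h ∣ N} am h`. -/
noncomputable def bm (X : ℝ) (q0 N : ℕ) : ℝ := ∑ h ∈ (Ioc 0 ⌊X⌋₊).filter (fun h => h ∣ N), am X q0 h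

lemma am_not_squarefree {X : ℝ} {q0 h : ℕ} (hh : ¬ Squarefree h) : am X q0 h = 0 := by
  unfold am
  rw [amol_not_squarefree hh]
  simp

lemma abs_am_le {X : ℝ} (hX : 1 < X) (q0 h : ℕ) : |am X q0 h| ≤ 1 := by
  unfold am
  split_ifs
  · exact abs_amol_le hX h
  · simp

/-- one-parameter sum with the coprimality condition. -/
noncomputable def A1c (Y ε : ℝ) (q0 q : ℕ) : ℝ :=
  ∑ h ∈ (Ioc 0 ⌊Y⌋₊).filter (fun h => q ∣ h), (if h.Coprime q0 then (moebius h : ℝ) * ew ε h * Real.log (Y / h) else 0)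

lemma A1c_eq {Y ε : ℝ} {q0 q : ℕ} (hq : 0 < q) :
    A1c Y ε q0 q = if q.Coprime q0 then (moebius q : ℝ) * ew ε q *
      ∑ m ∈ (Ioc 0 ⌊Y / q⌋₊).filter (fun m => m.Coprime (q * q0)),
      (moebius m : ℝ) / m * (Real.exp (-ε * Real.log m) * Real.log (Y / q / m)) else 0 := by
  unfold A1c
  have h1 : ∑ h ∈ (Ioc 0 ⌊Y⌋₊).filter (fun h => q ∣ h),
        (if h.Coprime q0 then (moebius h : ℝ) * ew ε h * Real.log (Y / h) else 0)
      = ∑ m ∈ Ioc 0 ⌊Y / q⌋₊, (if (q * m).Coprime q0 then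
          (moebius (q * m) : ℝ) * ew ε (q * m) * Real.log (Y / ((q * m : ℕ) : ℝ)) else 0) := by
    symm
    apply Finset.sum_bij (fun m _ => q * m)
    · intro m hm
      simp only [mem_filter, mem_Ioc, Nat.floor_div_natCast] at hm ⊢
      refine ⟨⟨Nat.mul_pos hq hm.1, ?_⟩, dvd_mul_right _ _⟩
      calc q * m ≤ q * (⌊Y⌋₊ / q) := by gcongr; exact hm.2
        _ ≤ _ := Nat.mul_div_le _ _
    · intro a _ b _ h
      exact Nat.eq_of_mul_eq_mul_left hq h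
    · intro h hh
      simp only [mem_filter, mem_Ioc] at hh
      obtain ⟨⟨h1, h2⟩, m, rfl⟩ := hh
      refine ⟨m, ?_, rfl⟩
      rw [mem_Ioc, Nat.floor_div_natCast]
      refine ⟨Nat.pos_of_ne_zero (by rintro rfl; simp at h1), ?_⟩
      rw [Nat.le_div_iff_mul_le hq]
      linarith only [h2]
    · intro m _; rfl
  rw [h1]
  by_cases hc : q.Coprime q0
  · rw [if_pos hc, sum_filter, mul_sum]
    refine sum_congr rfl fun m hm => ?_
    have hm0 : m ≠ 0 := (mem_Ioc.mp hm).1.ne'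
    by_cases h2 : m.Coprime q0
    · rw [if_pos (Nat.Coprime.mul_left hc h2)]
      by_cases h3 : m.Coprime q
      · rw [if_pos (Nat.Coprime.mul_right h3 h2), isMultiplicative_moebius.map_mul_of_coprime h3.symm,
          ew_mul ε hq.ne' hm0, ew_eq ε hm0]
        push_cast
        rw [div_div]
        ring
      · rw [if_neg (fun h => h3 (Nat.Coprime.coprime_mul_right_right h))]
        have : ¬ Squarefree (q * m) := by
          intro hsq
          exact h3 (Nat.coprime_of_squarefree_mul hsq).symm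
        rw [moebius_eq_zero_of_not_squarefree this]
        simp
    · rw [if_neg (fun h => h2 (Nat.Coprime.coprime_mul_left h)),
        if_neg (fun h => h2 (Nat.Coprime.coprime_mul_left_right h))]
      simp
  · rw [if_neg hc]
    apply sum_eq_zero
    intro m _
    rw [if_neg (fun h => hc (Nat.Coprime.coprime_mul_right h))]

lemma kap_nonneg (d : ℕ) : 0 ≤ kap d := (kap_pos d).le

lemma one_le_kap (d : ℕ) : 1 ≤ kap d := by
  unfold kap
  apply Finset.prod_induction _ (fun x : ℝ => 1 ≤ x) (fun a b ha hb => one_le_mul_of_one_le_of_one_le ha hb) le_rfl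
  intro p hp
  have hpp := Nat.prime_of_mem_primeFactors hp
  have h1 : (0:ℝ) < 1 - 1 / (p : ℝ) := kap_factor_pos hpp
  have h2 : (0:ℝ) < p := by exact_mod_cast hpp.pos
  rw [one_le_inv₀ h1]
  have : 0 < 1 / (p:ℝ) := by positivity
  linarith only [this]

lemma kap_mul {q q0 : ℕ} (h : q.Coprime q0) : kap (q * q0) = kap q * kap q0 := by
  unfold kap
  rw [Nat.Coprime.primeFactors_mul h, prod_union (Nat.Coprime.disjoint_primeFactors h)]

lemma abs_A1c_le {Y ε : ℝ} {q0 q : ℕ} (hq : 0 < q) (hq0 : Squarefree q0) (hε : 0 ≤ ε) (hY : 1 ≤ Y)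
    (hεY : ε * Real.log Y ≤ 1) :
    |A1c Y ε q0 q| ≤ if Squarefree q then 32 * kap q * kap q0 / q else 0 := by
  rw [A1c_eq hq]
  have hq0' : (0:ℝ) < q := by exact_mod_cast hq
  have hk1 := (kap_pos q).le
  have hk2 := (kap_pos q0).le
  by_cases hc : q.Coprime q0
  swap
  · rw [if_neg hc, abs_zero]
    split_ifs
    · positivity
    · exact le_rfl
  rw [if_pos hc]
  split_ifs with hsq
  · rw [abs_mul, abs_mul, abs_of_pos (ew_pos _ _)]
    have h1 : |(moebius q : ℝ)| ≤ 1 := by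
      have := abs_moebius_le_one (n := q)
      exact_mod_cast this
    have hsqq : Squarefree (q * q0) := (Nat.squarefree_mul hc).mpr ⟨hsq, hq0⟩
    have h2 : |∑ m ∈ (Ioc 0 ⌊Y / q⌋₊).filter (fun m => m.Coprime (q * q0)),
      (moebius m : ℝ) / m * (Real.exp (-ε * Real.log m) * Real.log (Y / q / m))| ≤ 32 * (kap q * kap q0) := by
      rw [← kap_mul hc]
      rcases lt_or_ge (Y / q) 1 with h | h
      · rw [Nat.floor_eq_zero.mpr h]
        simp [(kap_pos (q * q0)).le]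
      · refine twisted_bound hsqq hε h ?_
        calc ε * Real.log (Y / q) ≤ ε * Real.log Y := by
              gcongr
              apply div_le_self (by linarith only [hY])
              exact_mod_cast hq
          _ ≤ 1 := hεY
    calc |(moebius q : ℝ)| * ew ε q * _ ≤ 1 * (1 / q) * (32 * (kap q * kap q0)) := by
          gcongr
          · exact (ew_pos _ _).le
          · exact ew_le hε hq.ne'
      _ = _ := by ring
  · rw [moebius_eq_zero_of_not_squarefree hsq]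
    simp

/-- `y_q` -/
noncomputable def yqc (X ε : ℝ) (q0 q : ℕ) : ℝ :=
  ∑ h ∈ (Ioc 0 ⌊X⌋₊).filter (fun h => q ∣ h), am X q0 h * ew ε h

lemma yqc_eq {X ε : ℝ} (hX : 1 < X) (q0 q : ℕ) :
    yqc X ε q0 q = 2 / Real.log X * (A1c X ε q0 q - A1c (√X) ε q0 q) := by
  have hs : 0 < √X := Real.sqrt_pos.mpr (by linarith)
  have hX0 : 0 < X := by linarith
  have hsX : √X ≤ X := by
    rw [Real.sqrt_le_left (by linarith)]
    nlinarith only [hX]
  have h2 : A1c (√X) ε q0 q = ∑ h ∈ (Ioc 0 ⌊X⌋₊).filter (fun h => q ∣ h),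
      (if h.Coprime q0 then (moebius h : ℝ) * ew ε h * max 0 (Real.log (√X / h)) else 0) := by
    unfold A1c
    trans ∑ h ∈ (Ioc 0 ⌊√X⌋₊).filter (fun h => q ∣ h),
      (if h.Coprime q0 then (moebius h : ℝ) * ew ε h * max 0 (Real.log (√X / h)) else 0)
    · refine sum_congr rfl fun h hh => ?_
      simp only [mem_filter, mem_Ioc] at hh
      have hh0 : (0:ℝ) < h := by exact_mod_cast hh.1.1
      have : (h:ℝ) ≤ √X := (Nat.le_floor_iff hs.le).mp hh.1.2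
      rw [max_eq_right]
      apply Real.log_nonneg
      rw [le_div_iff₀ hh0]; linarith only [this]
    apply Finset.sum_subset
    · intro h hh
      simp only [mem_filter, mem_Ioc] at hh ⊢
      exact ⟨⟨hh.1.1, hh.1.2.trans (Nat.floor_le_floor hsX)⟩, hh.2⟩
    · intro h hh hh'
      simp only [mem_filter, mem_Ioc] at hh hh'
      have hh0 : (0:ℝ) < h := by exact_mod_cast hh.1.1
      have h3 : ¬ (h ≤ ⌊√X⌋₊) := fun h4 => hh' ⟨⟨hh.1.1, h4⟩, hh.2⟩
      rw [Nat.le_floor_iff hs.le] at h3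
      push Not at h3
      rw [max_eq_left]
      · simp
      · apply Real.log_nonpos (by positivity)
        rw [div_le_one hh0]; exact h3.le
  rw [h2]
  unfold A1c yqc
  rw [← sum_sub_distrib, mul_sum]
  refine sum_congr rfl fun h hh => ?_
  simp only [mem_filter, mem_Ioc] at hh
  have hh0 : (0:ℝ) < h := by exact_mod_cast hh.1.1
  have h4 : (h:ℝ) ≤ X := (Nat.le_floor_iff hX0.le).mp hh.1.2
  unfold am
  by_cases hc : h.Coprime q0
  · rw [if_pos hc, if_pos hc, if_pos hc]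
    unfold amol
    rw [max_eq_right (a := 0) (b := Real.log (X / h))]
    · ring
    · apply Real.log_nonneg
      rw [le_div_iff₀ hh0]; linarith only [h4]
  · rw [if_neg hc, if_neg hc, if_neg hc]
    ring

lemma abs_yqc_le {X ε : ℝ} (hX : 1 < X) (hε : 0 ≤ ε) (hεX : ε * Real.log X ≤ 1) {q0 q : ℕ} (hq0 : Squarefree q0)
    (hq : 0 < q) :
    |yqc X ε q0 q| ≤ if Squarefree q then 128 * kap q * kap q0 / (q * Real.log X) else 0 := by
  have hl : 0 < Real.log X := Real.log_pos hX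
  have hs1 : 1 ≤ √X := Real.one_le_sqrt.mpr hX.le
  rw [yqc_eq hX, abs_mul, abs_of_pos (a := 2 / Real.log X) (by positivity)]
  have h1 := abs_A1c_le (Y := X) hq hq0 hε hX.le hεX
  have h2 := abs_A1c_le (Y := √X) hq hq0 hε hs1 (by
    rw [log_sqrt' (by linarith only [hX])]
    nlinarith only [hεX])
  have h3 : |A1c X ε q0 q - A1c (√X) ε q0 q| ≤ |A1c X ε q0 q| + |A1c (√X) ε q0 q| := abs_sub _ _
  have hq1 : (0:ℝ) < q := by exact_mod_cast hq
  split_ifs at h1 h2 ⊢ with hsq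
  · calc 2 / Real.log X * |A1c X ε q0 q - A1c (√X) ε q0 q|
        ≤ 2 / Real.log X * (32 * kap q * kap q0 / q + 32 * kap q * kap q0 / q) := by
          gcongr; linarith only [h3, h1, h2]
      _ = _ := by field_simp; ring
  · have : |A1c X ε q0 q - A1c (√X) ε q0 q| ≤ 0 := by linarith only [h3, h1, h2]
    have h5 : 0 < 2 / Real.log X := by positivity
    nlinarith only [h3, h1, h2, h5]

lemma QFc_le {X ε : ℝ} (hX : 3 ≤ X) (hε : 0 ≤ ε) (hεX : ε * Real.log X ≤ 1) {q0 : ℕ} (hq0 : Squarefree q0) :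
    ∑ q ∈ Ioc 0 ⌊X⌋₊, (q:ℝ) * Real.exp (ε * Real.log q) * yqc X ε q0 q ^ 2 ≤ CQ * kap q0 ^ 2 / Real.log X := by
  have hl : 1 ≤ Real.log X := by
    rw [Real.le_log_iff_exp_le (by linarith)]
    have := Real.exp_one_lt_d9
    linarith only [hX, this]
  have hX0 : 0 < X := by linarith
  have hN1 : 1 ≤ ⌊X⌋₊ := (Nat.one_le_floor_iff X).mpr (by linarith)
  calc ∑ q ∈ Ioc 0 ⌊X⌋₊, (q:ℝ) * Real.exp (ε * Real.log q) * yqc X ε q0 q ^ 2
      ≤ ∑ q ∈ Ioc 0 ⌊X⌋₊, (if Squarefree q then 128 ^ 2 * Real.exp 1 * kap q0 ^ 2 / Real.log X ^ 2 *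
          (kap q ^ 2 / q) else 0) := by
        refine sum_le_sum fun q hq => ?_
        rw [mem_Ioc] at hq
        have hq1 : (0:ℝ) < q := by exact_mod_cast hq.1
        have hqX : (q:ℝ) ≤ X := (Nat.le_floor_iff hX0.le).mp hq.2
        have h1 := abs_yqc_le (X := X) (ε := ε) (by linarith only [hX]) hε hεX hq0 hq.1
        have h2 : Real.exp (ε * Real.log q) ≤ Real.exp 1 := by
          apply Real.exp_le_exp.mpr
          calc ε * Real.log q ≤ ε * Real.log X := by gcongr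
            _ ≤ 1 := hεX
        split_ifs at h1 ⊢ with hsq
        · have h3 : yqc X ε q0 q ^ 2 ≤ (128 * kap q * kap q0 / (q * Real.log X)) ^ 2 := by
            rw [← sq_abs]
            gcongr
          calc (q:ℝ) * Real.exp (ε * Real.log q) * yqc X ε q0 q ^ 2
              ≤ q * Real.exp 1 * (128 * kap q * kap q0 / (q * Real.log X)) ^ 2 := by gcongr
            _ = _ := by field_simp
        · have : yqc X ε q0 q = 0 := abs_nonpos_iff.mp h1
          rw [this]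
          simp
    _ = 128 ^ 2 * Real.exp 1 * kap q0 ^ 2 / Real.log X ^ 2 * ∑ q ∈ (Ioc 0 ⌊X⌋₊).filter Squarefree, kap q ^ 2 / q := by
        rw [← sum_filter, mul_sum]
    _ ≤ 128 ^ 2 * Real.exp 1 * kap q0 ^ 2 / Real.log X ^ 2 * (Real.exp 6 * (1 + Real.log ⌊X⌋₊)) := by
        gcongr
        exact sum_kap_sq hN1
    _ ≤ 128 ^ 2 * Real.exp 1 * kap q0 ^ 2 / Real.log X ^ 2 * (Real.exp 6 * (2 * Real.log X)) := by
        gcongr
        have : Real.log ⌊X⌋₊ ≤ Real.log X := Real.log_le_log (by exact_mod_cast hN1) (Nat.floor_le hX0.le)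
        linarith only [hl, this]
    _ = CQ * kap q0 ^ 2 / Real.log X := by unfold CQ; field_simp

lemma yqc_not_squarefree {X ε : ℝ} {q0 q : ℕ} (hq : ¬ Squarefree q) : yqc X ε q0 q = 0 := by
  unfold yqc
  apply sum_eq_zero
  intro h hh
  rw [mem_filter] at hh
  rw [am_not_squarefree (fun hs => hq (hs.squarefree_of_dvd hh.2))]
  simp

/-- the diagonalisation. -/
lemma quadc_eq (X ε : ℝ) (q0 : ℕ) :
    ∑ h ∈ Ioc 0 ⌊X⌋₊, ∑ k ∈ Ioc 0 ⌊X⌋₊, am X q0 h * am X q0 k * ew ε (h.lcm k)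
      = ∑ q ∈ Ioc 0 ⌊X⌋₊, Jf ε q * yqc X ε q0 q ^ 2 := by
  have h1 : ∀ q ∈ Ioc 0 ⌊X⌋₊, Jf ε q * yqc X ε q0 q ^ 2
      = ∑ h ∈ Ioc 0 ⌊X⌋₊, ∑ k ∈ Ioc 0 ⌊X⌋₊,
        (if q ∣ h ∧ q ∣ k then Jf ε q * (am X q0 h * ew ε h) * (am X q0 k * ew ε k) else 0) := by
    intro q _
    unfold yqc
    rw [sum_filter, sq, sum_mul_sum, mul_sum]
    refine sum_congr rfl fun h _ => ?_
    rw [mul_sum]
    refine sum_congr rfl fun k _ => ?_
    by_cases hh : q ∣ h <;> by_cases hk : q ∣ k <;> simp [hh, hk]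
    ring
  rw [sum_congr rfl h1]
  symm
  rw [sum_comm]
  refine sum_congr rfl fun h hh => ?_
  rw [sum_comm]
  refine sum_congr rfl fun k hk => ?_
  symm
  rw [mem_Ioc] at hh hk
  by_cases hsh : Squarefree h
  swap
  · rw [am_not_squarefree hsh]; simp
  have hsg : Squarefree (h.gcd k) := hsh.squarefree_of_dvd (Nat.gcd_dvd_left _ _)
  rw [ew_lcm ε hh.1.ne' hk.1.ne', exp_log_eq_sum_Jf hsg, ← sum_filter]
  have h2 : (h.gcd k).divisors = (Ioc 0 ⌊X⌋₊).filter (fun q => q ∣ h ∧ q ∣ k) := by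
    ext q
    simp only [Nat.mem_divisors, mem_filter, mem_Ioc]
    constructor
    · rintro ⟨h3, _⟩
      have h4 := (Nat.dvd_gcd_iff.mp h3)
      exact ⟨⟨Nat.pos_of_dvd_of_pos h4.1 hh.1, (Nat.le_of_dvd hh.1 h4.1).trans hh.2⟩, h4⟩
    · rintro ⟨_, h3⟩
      exact ⟨Nat.dvd_gcd h3.1 h3.2, Nat.gcd_ne_zero_left hh.1.ne'⟩
  rw [h2, mul_sum, mul_sum]
  refine sum_congr rfl fun q _ => by ring

lemma quadc_le {X ε : ℝ} (hX : 3 ≤ X) (hε : 0 ≤ ε) (hεX : ε * Real.log X ≤ 1) {q0 : ℕ} (hq0 : Squarefree q0) :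
    ∑ h ∈ Ioc 0 ⌊X⌋₊, ∑ k ∈ Ioc 0 ⌊X⌋₊, am X q0 h * am X q0 k * ew ε (h.lcm k) ≤ CQ * kap q0 ^ 2 / Real.log X := by
  rw [quadc_eq]
  refine le_trans ?_ (QFc_le hX hε hεX hq0)
  refine sum_le_sum fun q hq => ?_
  rw [mem_Ioc] at hq
  have hq1 : (0:ℝ) < q := by exact_mod_cast hq.1
  by_cases hsq : Squarefree q
  · apply mul_le_mul_of_nonneg_right _ (sq_nonneg _)
    refine (Jf_le hε hsq).trans (le_of_eq ?_)
    rw [show (1 + ε) * Real.log q = Real.log q + ε * Real.log q by ring, Real.exp_add,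
      Real.exp_log hq1]
  · rw [yqc_not_squarefree hsq]; simp

lemma quadc_nonneg {X ε : ℝ} (hε : 0 ≤ ε) (q0 : ℕ) :
    0 ≤ ∑ h ∈ Ioc 0 ⌊X⌋₊, ∑ k ∈ Ioc 0 ⌊X⌋₊, am X q0 h * am X q0 k * ew ε (h.lcm k) := by
  rw [quadc_eq]
  exact sum_nonneg fun q _ => mul_nonneg (Jf_nonneg hε q) (sq_nonneg _)

/-- the sum of `bm²` against `N^{-1-ε}` over all `N`. -/
theorem hasSum_bm {X ε : ℝ} (hε : 0 < ε) (q0 : ℕ) :
    HasSum (fun N => bm X q0 N ^ 2 * ew0 ε N)
      ((∑' n, ew0 ε n) * ∑ h ∈ Ioc 0 ⌊X⌋₊, ∑ k ∈ Ioc 0 ⌊X⌋₊, am X q0 h * am X q0 k * ew ε (h.lcm k)) := by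
  have h1 : HasSum (fun N => ∑ h ∈ Ioc 0 ⌊X⌋₊, ∑ k ∈ Ioc 0 ⌊X⌋₊,
      am X q0 h * am X q0 k * (if h.lcm k ∣ N then ew0 ε N else 0))
      (∑ h ∈ Ioc 0 ⌊X⌋₊, ∑ k ∈ Ioc 0 ⌊X⌋₊, am X q0 h * am X q0 k * (ew ε (h.lcm k) * ∑' n, ew0 ε n)) := by
    apply hasSum_sum
    intro h hh
    apply hasSum_sum
    intro k hk
    rw [mem_Ioc] at hh hk
    exact (hasSum_mult hε (Nat.lcm_ne_zero hh.1.ne' hk.1.ne')).mul_left _
  have h4 : ∑ h ∈ Ioc 0 ⌊X⌋₊, ∑ k ∈ Ioc 0 ⌊X⌋₊, am X q0 h * am X q0 k * (ew ε (h.lcm k) * ∑' n, ew0 ε n)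
      = (∑' n, ew0 ε n) * ∑ h ∈ Ioc 0 ⌊X⌋₊, ∑ k ∈ Ioc 0 ⌊X⌋₊, am X q0 h * am X q0 k * ew ε (h.lcm k) := by
    rw [mul_sum]
    refine sum_congr rfl fun h _ => ?_
    rw [mul_sum]
    refine sum_congr rfl fun k _ => by ring
  rw [h4] at h1
  convert h1 using 1
  funext N
  unfold bm
  rw [sum_filter, sq, sum_mul_sum, sum_mul]
  refine sum_congr rfl fun h _ => ?_
  rw [sum_mul]
  refine sum_congr rfl fun k _ => ?_
  by_cases hh : h ∣ N <;> by_cases hk : k ∣ N <;> simp [hh, hk, Nat.lcm_dvd_iff]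

/-- **Barban-Vehov with a coprimality condition**, all `N` at once. -/
theorem bvq_tsum {X ε : ℝ} (hX : 3 ≤ X) (hε : 0 < ε) (hεX : ε * Real.log X ≤ 1) {q0 : ℕ} (hq0 : Squarefree q0) :
    ∑' N, bm X q0 N ^ 2 * ew0 ε N ≤ (1 + 1 / ε) * (CQ * kap q0 ^ 2 / Real.log X) := by
  rw [(hasSum_bm hε q0).tsum_eq]
  have h5 := quadc_le hX hε.le hεX hq0
  have h6 := quadc_nonneg (X := X) hε.le q0
  have h7 := tsum_ew0_le hε
  have h8 : 0 ≤ 1 + 1 / ε := by positivity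
  exact mul_le_mul h7 h5 h6 h8

/-- **Barban-Vehov with a coprimality condition**. -/
theorem bvq {X ε : ℝ} (hX : 3 ≤ X) (hε : 0 < ε) (hεX : ε * Real.log X ≤ 1) {q0 : ℕ} (hq0 : Squarefree q0) (K : ℕ) :
    ∑ N ∈ Ioc 0 K, bm X q0 N ^ 2 * ew ε N ≤ (1 + 1 / ε) * (CQ * kap q0 ^ 2 / Real.log X) := by
  have h2 : ∑ N ∈ Ioc 0 K, bm X q0 N ^ 2 * ew ε N = ∑ N ∈ Ioc 0 K, bm X q0 N ^ 2 * ew0 ε N := by
    refine sum_congr rfl fun N hN => ?_
    unfold ew0
    rw [if_neg (mem_Ioc.mp hN).1.ne']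
  rw [h2]
  exact (sum_le_hasSum _ (fun N _ => mul_nonneg (sq_nonneg _) (ew0_nonneg _ _)) (hasSum_bm hε q0)).trans
    ((hasSum_bm hε q0).tsum_eq ▸ bvq_tsum hX hε hεX hq0)

lemma am_one {X : ℝ} (hX : 1 < X) (q0 : ℕ) : am X q0 1 = 1 := by
  unfold am
  rw [if_pos (Nat.coprime_one_left q0), amol_of_le_sqrt hX]
  · simp
  · simp [hX.le]

lemma bm_one {X : ℝ} (hX : 1 < X) (q0 : ℕ) : bm X q0 1 = 1 := by
  unfold bm
  have h1 : (Ioc 0 ⌊X⌋₊).filter (fun h => h ∣ 1) = {1} := by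
    ext h
    simp only [mem_filter, mem_Ioc, Nat.dvd_one, mem_singleton]
    constructor
    · exact fun h => h.2
    · rintro rfl
      exact ⟨⟨by norm_num, (Nat.one_le_floor_iff X).mpr hX.le⟩, rfl⟩
  rw [h1, sum_singleton, am_one hX]

lemma bm_eq_zero {X : ℝ} (hX : 1 < X) {q0 N : ℕ} (hN : 1 < N) (hNX : (N:ℝ) ≤ √X) (hc : N.Coprime q0) :
    bm X q0 N = 0 := by
  have h1 : bm X q0 N = bmol X N := by
    unfold bm bmol
    refine sum_congr rfl fun h hh => ?_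
    rw [mem_filter] at hh
    unfold am
    rw [if_pos (Nat.Coprime.coprime_dvd_left hh.2 hc)]
  rw [h1]
  exact bmol_eq_zero hX hN hNX

lemma abs_bm_le {X : ℝ} (hX : 1 < X) (q0 N : ℕ) (hN : N ≠ 0) : |bm X q0 N| ≤ (N.divisors.card : ℝ) := by
  unfold bm
  refine (abs_sum_le_sum_abs _ _).trans ?_
  calc _ ≤ ∑ h ∈ (Ioc 0 ⌊X⌋₊).filter (fun h => h ∣ N), (1:ℝ) := sum_le_sum fun h _ => abs_am_le hX q0 h
    _ = (((Ioc 0 ⌊X⌋₊).filter (fun h => h ∣ N)).card : ℝ) := by simp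
    _ ≤ _ := by
        have : (Ioc 0 ⌊X⌋₊).filter (fun h => h ∣ N) ⊆ N.divisors := by
          intro h hh
          rw [mem_filter] at hh
          exact Nat.mem_divisors.mpr ⟨hh.2, hN⟩
        exact_mod_cast card_le_card this

end Pool.Agent.Helper25.UG
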