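import Pool.Agent.Helper25.UG.Bv
import Pool.Agent.Helper25.UG.Me

/-!
# UG: sums over the primes of `(y, y ^ 3]`
-/

open ArithmeticFunction Finset
open Pool.Agent.Helper57.LH

namespace Pool.Agent.Helper25.UG

lemma inv_one_sub_le {x : ℝ} (h0 : 0 ≤ x) (h1 : x ≤ 1 / 2) : (1 - x)⁻¹ ≤ Real.exp (2 * x) := by
  have h2 : 0 < 1 - x := by linarith
  rw [inv_le_comm₀ h2 (Real.exp_pos _), ← Real.exp_neg]
  have h3 : Real.exp (-(2 * x)) * Real.exp (2 * x) = 1 := by rw [← Real.exp_add]; simp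
  have h4 := Real.add_one_le_exp (2 * x)
  have h5 : Real.exp (-(2 * x)) * (1 + 2 * x) ≤ 1 := by
    rw [← h3]
    apply mul_le_mul_of_nonneg_left _ (Real.exp_pos _).le
    linarith
  by_contra h6
  push Not at h6
  have h7 : (1 - x) * (1 + 2 * x) < 1 := by
    refine lt_of_lt_of_le ?_ h5
    exact mul_lt_mul_of_pos_right h6 (by linarith)
  nlinarith

/-- the product of the primes of `S`. -/
def pS (S : Finset ℕ) : ℕ := ∏ p ∈ S, p

lemma pS_squarefree {S : Finset ℕ} (hS : ∀ p ∈ S, p.Prime) : Squarefree (pS S) := by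
  unfold pS
  apply Finset.squarefree_prod_of_pairwise_isCoprime
  · intro p hp q hq hpq
    exact Nat.coprime_iff_isRelPrime.mp ((Nat.coprime_primes (hS p hp) (hS q hq)).mpr hpq)
  · intro p hp
    exact (hS p hp).squarefree

lemma pS_primeFactors {S : Finset ℕ} (hS : ∀ p ∈ S, p.Prime) : (pS S).primeFactors = S :=
  Nat.primeFactors_prod hS

lemma kap_pS_le {S : Finset ℕ} (hS : ∀ p ∈ S, p.Prime) : kap (pS S) ≤ Real.exp (2 * ∑ p ∈ S, 1 / (p:ℝ)) := by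
  unfold kap
  rw [pS_primeFactors hS, mul_sum, Real.exp_sum]
  apply prod_le_prod
  · intro p hp
    exact (inv_pos.mpr (kap_factor_pos (hS p hp))).le
  · intro p hp
    have h2 : (2:ℝ) ≤ p := by exact_mod_cast (hS p hp).two_le
    apply inv_one_sub_le (by positivity)
    rw [div_le_div_iff₀ (by linarith) (by norm_num)]
    linarith

/-- the primes of `(y, z]`. -/
noncomputable def prs (y z : ℝ) : Finset ℕ := (Ioc ⌊y⌋₊ ⌊z⌋₊).filter Nat.Prime

lemma mem_prs {y z : ℝ} (hz : 0 ≤ z) {p : ℕ} : p ∈ prs y z ↔ y < p ∧ (p:ℝ) ≤ z ∧ p.Prime := by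
  unfold prs
  rw [mem_filter, mem_Ioc]
  constructor
  · rintro ⟨⟨h1, h2⟩, h3⟩
    exact ⟨Nat.lt_of_floor_lt h1, (Nat.le_floor_iff hz).mp h2, h3⟩
  · rintro ⟨h1, h2, h3⟩
    exact ⟨⟨(Nat.floor_lt' h3.ne_zero).mpr h1, (Nat.le_floor_iff hz).mpr h2⟩, h3⟩

lemma prs_prime {y z : ℝ} : ∀ p ∈ prs y z, p.Prime := fun _ hp => (mem_filter.mp hp).2

/-- Mertens' first theorem for a real interval. -/
theorem mert_real : ∃ C : ℝ, 0 < C ∧ ∀ y z : ℝ, 1 ≤ y → y ≤ z →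
    |∑ p ∈ prs y z, Real.log p / p - Real.log (z / y)| ≤ C := by
  obtain ⟨C, hC, hM⟩ := mert1
  refine ⟨2 * C + 2 * Real.log 2, by have := Real.log_pos (by norm_num : (1:ℝ) < 2); positivity, fun y z hy hyz => ?_⟩
  have hl : ∀ x : ℝ, 1 ≤ x → Real.log x - Real.log 2 ≤ Real.log ⌊x⌋₊ ∧ Real.log ⌊x⌋₊ ≤ Real.log x := by
    intro x hx
    have h1 : 1 ≤ ⌊x⌋₊ := (Nat.one_le_floor_iff x).mpr hx
    have h2 : (0:ℝ) < ⌊x⌋₊ := by exact_mod_cast h1
    have h3 : (1:ℝ) ≤ ⌊x⌋₊ := by exact_mod_cast h1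
    have h4 := Nat.floor_le (by linarith : 0 ≤ x)
    have h5 := Nat.lt_floor_add_one x
    constructor
    · rw [← Real.log_div (by linarith) (by norm_num)]
      apply Real.log_le_log (by positivity)
      linarith
    · exact Real.log_le_log h2 h4
  have hy0 : 1 ≤ ⌊y⌋₊ := (Nat.one_le_floor_iff y).mpr hy
  have hz0 : 1 ≤ ⌊z⌋₊ := (Nat.one_le_floor_iff z).mpr (by linarith)
  have hle : ⌊y⌋₊ ≤ ⌊z⌋₊ := Nat.floor_le_floor hyz
  have h2 : ∑ p ∈ PPm ⌊z⌋₊, Real.log p / p = ∑ p ∈ PPm ⌊y⌋₊, Real.log p / p + ∑ p ∈ prs y z, Real.log p / p := by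
    rw [← Finset.sum_union]
    · refine Finset.sum_congr ?_ fun _ _ => rfl
      ext p
      simp only [PPm, prs, Finset.mem_union, Finset.mem_filter, Finset.mem_Icc, Finset.mem_Ioc]
      constructor
      · rintro ⟨⟨h1, h2⟩, h3⟩
        by_cases h : p ≤ ⌊y⌋₊
        · exact Or.inl ⟨⟨h1, h⟩, h3⟩
        · exact Or.inr ⟨⟨by omega, h2⟩, h3⟩
      · rintro (⟨⟨h1, h2⟩, h3⟩ | ⟨⟨h1, h2⟩, h3⟩)
        · exact ⟨⟨h1, by omega⟩, h3⟩
        · exact ⟨⟨h3.one_lt.le, h2⟩, h3⟩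
    · rw [Finset.disjoint_left]
      intro p hp hp'
      have h3 := (Finset.mem_Icc.1 (Finset.mem_filter.1 hp).1).2
      have h4 := (Finset.mem_Ioc.1 (Finset.mem_filter.1 hp').1).1
      omega
  have h3 := abs_le.1 (hM _ hz0)
  have h4 := abs_le.1 (hM _ hy0)
  have h5 := hl y hy
  have h6 := hl z (by linarith)
  rw [Real.log_div (by linarith) (by linarith), abs_le]
  constructor <;> linarith [h3.1, h3.2, h4.1, h4.2, h5.1, h5.2, h6.1, h6.2]

/-- upper bound for `∑ 1/p` on an interval. -/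
theorem inv_upper : ∃ C : ℝ, 0 < C ∧ ∀ y z : ℝ, 1 < y → y ≤ z →
    ∑ p ∈ prs y z, 1 / (p:ℝ) ≤ (Real.log (z / y) + C) / Real.log y := by
  obtain ⟨C, hC, hM⟩ := mert_real
  refine ⟨C, hC, fun y z hy hyz => ?_⟩
  have hL0 : 0 < Real.log y := Real.log_pos hy
  have h1 := (abs_le.mp (hM y z hy.le hyz)).2
  rw [le_div_iff₀ hL0]
  have h3 : (∑ p ∈ prs y z, 1 / (p:ℝ)) * Real.log y ≤ ∑ p ∈ prs y z, Real.log p / p := by
    rw [sum_mul]
    refine sum_le_sum fun p hp => ?_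
    have h4 := (mem_prs (by linarith)).mp hp
    have h5 : (0:ℝ) < p := by linarith
    have h6 : Real.log y ≤ Real.log p := Real.log_le_log (by linarith) h4.1.le
    calc 1 / (p:ℝ) * Real.log y = Real.log y / p := by ring
      _ ≤ _ := by gcongr
  linarith

/-- lower bound for `∑ 1/p` on an interval. -/
theorem inv_lower : ∃ C : ℝ, 0 < C ∧ ∀ y z : ℝ, 1 < y → y ≤ z →
    (Real.log (z / y) - C) / Real.log z ≤ ∑ p ∈ prs y z, 1 / (p:ℝ) := by
  obtain ⟨C, hC, hM⟩ := mert_real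
  refine ⟨C, hC, fun y z hy hyz => ?_⟩
  have hL0 : 0 < Real.log z := Real.log_pos (by linarith)
  have h1 := (abs_le.mp (hM y z hy.le hyz)).1
  rw [div_le_iff₀ hL0]
  have h3 : ∑ p ∈ prs y z, Real.log p / p ≤ (∑ p ∈ prs y z, 1 / (p:ℝ)) * Real.log z := by
    rw [sum_mul]
    refine sum_le_sum fun p hp => ?_
    have h4 := (mem_prs (by linarith)).mp hp
    have h5 : (0:ℝ) < p := by linarith
    have h6 : Real.log p ≤ Real.log z := Real.log_le_log h5 h4.2.1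
    calc Real.log p / (p:ℝ) ≤ Real.log z / p := by gcongr
      _ = _ := by ring
  linarith

lemma prs_split {x y z : ℝ} (h1 : x ≤ y) (h2 : y ≤ z) (f : ℕ → ℝ) :
    ∑ p ∈ prs x z, f p = ∑ p ∈ prs x y, f p + ∑ p ∈ prs y z, f p := by
  have h3 : ⌊x⌋₊ ≤ ⌊y⌋₊ := Nat.floor_le_floor h1
  have h4 : ⌊y⌋₊ ≤ ⌊z⌋₊ := Nat.floor_le_floor h2
  rw [← Finset.sum_union]
  · refine Finset.sum_congr ?_ fun _ _ => rfl
    ext p
    simp only [prs, Finset.mem_union, Finset.mem_filter, Finset.mem_Ioc]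
    constructor
    · rintro ⟨⟨h1, h2⟩, h3⟩
      by_cases h : p ≤ ⌊y⌋₊
      · exact Or.inl ⟨⟨h1, h⟩, h3⟩
      · exact Or.inr ⟨⟨by omega, h2⟩, h3⟩
    · rintro (⟨⟨h1, h2⟩, h3⟩ | ⟨⟨h1, h2⟩, h3⟩)
      · exact ⟨⟨h1, by omega⟩, h3⟩
      · exact ⟨⟨by omega, h2⟩, h3⟩
  · rw [Finset.disjoint_left]
    intro p hp hp'
    have h3 := (Finset.mem_Ioc.1 (Finset.mem_filter.1 hp).1).2
    have h4 := (Finset.mem_Ioc.1 (Finset.mem_filter.1 hp').1).1
    omega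

/-- `1/2 ≤ ∑ 1/p ≤ 2` over the primes of `(y, y ^ 3]`. -/
theorem sum_inv_block : ∃ y0 : ℝ, 2 ≤ y0 ∧ ∀ y : ℝ, y0 ≤ y →
    1 / 2 ≤ ∑ p ∈ prs y (y ^ 3), 1 / (p:ℝ) ∧ ∑ p ∈ prs y (y ^ 3), 1 / (p:ℝ) ≤ 2 := by
  obtain ⟨C, hC, hU⟩ := inv_upper
  obtain ⟨D, hD, hW⟩ := inv_lower
  refine ⟨max 2 (max (Real.exp (3 * C)) (Real.exp (3 * D))), le_max_left _ _, fun y hy => ?_⟩
  have hy2 : 2 ≤ y := (le_max_left _ _).trans hy
  have hyC : Real.exp (3 * C) ≤ y := ((le_max_left _ _).trans (le_max_right _ _)).trans hy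
  have hyD : Real.exp (3 * D) ≤ y := ((le_max_right _ _).trans (le_max_right _ _)).trans hy
  have hy0 : 0 < y := by linarith
  have hy1 : 1 < y := by linarith
  have h12 : y ≤ y ^ 2 := by nlinarith
  have h23 : y ^ 2 ≤ y ^ 3 := by nlinarith [sq_nonneg y]
  have hLC : 3 * C ≤ Real.log y := (Real.le_log_iff_exp_le hy0).mpr hyC
  have hLD : 3 * D ≤ Real.log y := (Real.le_log_iff_exp_le hy0).mpr hyD
  have hL0 : 0 < Real.log y := Real.log_pos hy1
  have e1 : Real.log (y ^ 2 / y) = Real.log y := by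
    rw [Real.log_div (by positivity) (by positivity), Real.log_pow]; push_cast; ring
  have e2 : Real.log (y ^ 3 / y ^ 2) = Real.log y := by
    rw [Real.log_div (by positivity) (by positivity), Real.log_pow, Real.log_pow]; push_cast; ring
  have l2 : Real.log (y ^ 2) = 2 * Real.log y := by rw [Real.log_pow]; push_cast; ring
  have l3 : Real.log (y ^ 3) = 3 * Real.log y := by rw [Real.log_pow]; push_cast; ring
  have u1 := hU y (y ^ 2) hy1 h12
  have u2 := hU (y ^ 2) (y ^ 3) (by linarith) h23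
  have w1 := hW y (y ^ 2) hy1 h12
  have w2 := hW (y ^ 2) (y ^ 3) (by linarith) h23
  rw [e1] at u1 w1
  rw [e2] at u2 w2
  rw [l2] at u2 w1
  rw [l3] at w2
  rw [prs_split h12 h23]
  have a1 : (Real.log y + C) / Real.log y ≤ 4 / 3 := by rw [div_le_iff₀ hL0]; linarith
  have a2 : (Real.log y + C) / (2 * Real.log y) ≤ 2 / 3 := by rw [div_le_iff₀ (by positivity)]; linarith
  have a3 : 1 / 3 ≤ (Real.log y - D) / (2 * Real.log y) := by rw [le_div_iff₀ (by positivity)]; linarith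
  have a4 : 2 / 9 ≤ (Real.log y - D) / (3 * Real.log y) := by rw [le_div_iff₀ (by positivity)]; linarith
  constructor <;> linarith

/-- `kap` of the product of the primes of `(y, y ^ 3]`. -/
theorem kap_le_of_sum {S : Finset ℕ} (hS : ∀ p ∈ S, p.Prime) {C : ℝ} (h : ∑ p ∈ S, 1 / (p:ℝ) ≤ C) :
    kap (pS S) ≤ Real.exp (2 * C) :=
  (kap_pS_le hS).trans (Real.exp_le_exp.mpr (by linarith))

end Pool.Agent.Helper25.UG
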